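import Mathlib
import Pool.Agent.Lib.MP_6a66b4_co.Final

set_option autoImplicit false

namespace Pool.Agent.Results.MP_6a66b4_co.LocalCubicGrowth

open Pool.Agent.Lib.MP_6a66b4_co

universe u

/-- For all `K` and `C` there is `N₀` such that, for every `N ≥ N₀`, every finite `K`-approximate
group `B` with a map `φ` which is admissible on `B ^ 12` has more than `C * N ^ 3` elements. -/
theorem result (K C : ℝ) : ∃ N₀ : ℕ, ∀ N ≥ N₀, ∀ (G : Type u) [Group G] (B : Set G)
    (φ : G → ℝ × ℝ × ℝ), AdmissibleOnPower K N 12 B φ → B.Finite →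
      C * (N : ℝ) ^ 3 < B.ncard :=
  local_main K C

end Pool.Agent.Results.MP_6a66b4_co.LocalCubicGrowth
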