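import Mathlib

set_option autoImplicit false

namespace Pool.Agent.Results.MP_6a66b4_co.QuadraticSize

/-- Multiplication of the Heisenberg group `H(ℝ)`. -/
def hmul (p q : ℝ × ℝ × ℝ) : ℝ × ℝ × ℝ :=
  (p.1 + q.1, p.2.1 + q.2.1, p.2.2 + q.2.2 + p.1 * q.2.1)

/-- Inverse in the Heisenberg group `H(ℝ)`. -/
def hinv (p : ℝ × ℝ × ℝ) : ℝ × ℝ × ℝ :=
  (-p.1, -p.2.1, -p.2.2 + p.1 * p.2.1)

/-- `B` is a `K`-approximate group: it contains `1`, is closed under inverses, and `B²` is covered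
by at most `K` left translates of `B`. -/
def IsApproxGroup {G : Type} [Group G] (K : ℝ) (B : Set G) : Prop :=
  1 ∈ B ∧ (∀ b ∈ B, b⁻¹ ∈ B) ∧
    ∃ X : Finset G, (X.card : ℝ) ≤ K ∧ ∀ b ∈ B, ∀ c ∈ B, ∃ x ∈ X, ∃ e ∈ B, b * c = x * e

/-- `(G, B, φ)` is admissible for `K` and `N` (only the values of `φ` on `B` matter). -/
def Admissible {G : Type} [Group G] (K : ℝ) (N : ℕ) (B : Set G) (φ : G → ℝ × ℝ × ℝ) : Prop :=
  IsApproxGroup K B ∧
  (∀ b ∈ B, (∃ i : ℤ, (φ b).1 = i / N) ∧ (∃ j : ℤ, (φ b).2.1 = j / N) ∧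
    |(φ b).1| ≤ 10 ∧ |(φ b).2.1| ≤ 10 ∧ |(φ b).2.2| ≤ 10) ∧
  (∀ i j : ℤ, |(i : ℝ) / N| ≤ 1 → |(j : ℝ) / N| ≤ 1 →
    ∃ z : ℝ, |z| ≤ 10 ∧ ∃ b ∈ B, φ b = ((i : ℝ) / N, (j : ℝ) / N, z)) ∧
  (∀ b ∈ B, ∀ c ∈ B, b * c ∈ B →
    ∃ z : ℝ, |z| ≤ 10 / N ∧ hmul (hinv (φ c)) (hmul (hinv (φ b)) (φ (b * c))) = (0, 0, z))

lemma hinv_zero : hinv (0, 0, 0) = (0, 0, 0) := by simp [hinv]

lemma hmul_zero (p : ℝ × ℝ × ℝ) : hmul p (0, 0, 0) = p := by
  obtain ⟨a, b, c⟩ := p; simp [hmul]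

lemma zero_hmul (p : ℝ × ℝ × ℝ) : hmul (0, 0, 0) p = p := by
  obtain ⟨a, b, c⟩ := p; simp [hmul]

lemma hinv_hmul (p : ℝ × ℝ × ℝ) : hmul (hinv p) p = (0, 0, 0) := by
  obtain ⟨a, b, c⟩ := p; simp [hmul, hinv]

lemma hmul_hinv (p : ℝ × ℝ × ℝ) : hmul p (hinv p) = (0, 0, 0) := by
  obtain ⟨a, b, c⟩ := p; simp [hmul, hinv]

lemma hinv_hinv (p : ℝ × ℝ × ℝ) : hinv (hinv p) = p := by
  obtain ⟨a, b, c⟩ := p; simp [hinv]

open Multiplicative

/-- the set `{0} ∪ {k : M < |k| < 2M}` of integers -/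
def Bset (M : ℤ) : Set (Multiplicative ℤ) :=
  {k | toAdd k = 0 ∨ (M < |toAdd k| ∧ |toAdd k| < 2 * M)}

lemma approx (M : ℤ) (hM : 2 ≤ M) : IsApproxGroup 5 (Bset M) := by
  refine ⟨Or.inl rfl, ?_, ?_⟩
  · rintro b (h | h)
    · left; rw [toAdd_inv, h, neg_zero]
    · right; rwa [toAdd_inv, abs_neg]
  · refine ⟨{ofAdd 0, ofAdd (M + 1), ofAdd (-(M + 1)), ofAdd (2 * M - 1), ofAdd (-(2 * M - 1))}, ?_, ?_⟩
    · have : (Finset.card {ofAdd (0 : ℤ), ofAdd (M + 1), ofAdd (-(M + 1)), ofAdd (2 * M - 1),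
          ofAdd (-(2 * M - 1))} : ℕ) ≤ 5 := Finset.card_le_five
      exact_mod_cast this
    · intro b hb c hc
      have key : ∀ t : ℤ, (toAdd (b * c) - t = 0 ∨
          (M < |toAdd (b * c) - t| ∧ |toAdd (b * c) - t| < 2 * M)) →
          ∃ e ∈ Bset M, b * c = ofAdd t * e := by
        intro t ht
        refine ⟨ofAdd (toAdd (b * c) - t), ht, ?_⟩
        rw [← ofAdd_add, add_sub_cancel]; rfl
      have hs : toAdd (b * c) = toAdd b + toAdd c := rfl
      simp only [Bset, Set.mem_ofPred_eq] at hb hc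
      set u := toAdd b
      set v := toAdd c
      have main : ((u + v) - 0 = 0 ∨ (M < |(u + v) - 0| ∧ |(u + v) - 0| < 2 * M)) ∨
        ((u + v) - (M + 1) = 0 ∨ (M < |(u + v) - (M + 1)| ∧ |(u + v) - (M + 1)| < 2 * M)) ∨
        ((u + v) - (-(M + 1)) = 0 ∨ (M < |(u + v) - (-(M + 1))| ∧ |(u + v) - (-(M + 1))| < 2 * M)) ∨
        ((u + v) - (2 * M - 1) = 0 ∨ (M < |(u + v) - (2 * M - 1)| ∧ |(u + v) - (2 * M - 1)| < 2 * M)) ∨
        ((u + v) - (-(2 * M - 1)) = 0 ∨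
          (M < |(u + v) - (-(2 * M - 1))| ∧ |(u + v) - (-(2 * M - 1))| < 2 * M)) := by
        simp only [lt_abs, abs_lt] at hb hc ⊢
        omega
      rcases main with h | h | h | h | h
      · obtain ⟨e, he, hbe⟩ := key _ h; exact ⟨_, by simp, e, he, hbe⟩
      · obtain ⟨e, he, hbe⟩ := key _ h; exact ⟨_, by simp, e, he, hbe⟩
      · obtain ⟨e, he, hbe⟩ := key _ h; exact ⟨_, by simp, e, he, hbe⟩
      · obtain ⟨e, he, hbe⟩ := key _ h; exact ⟨_, by simp, e, he, hbe⟩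
      · obtain ⟨e, he, hbe⟩ := key _ h; exact ⟨_, by simp, e, he, hbe⟩

/-- sum-freeness: the only products inside `B` are the trivial ones -/
lemma sumfree {M : ℤ} {b c : Multiplicative ℤ} (hb : b ∈ Bset M) (hc : c ∈ Bset M)
    (hbc : b * c ∈ Bset M) : b = 1 ∨ c = 1 ∨ c = b⁻¹ := by
  have hs : toAdd (b * c) = toAdd b + toAdd c := rfl
  simp only [Bset, Set.mem_ofPred_eq, hs] at hb hc hbc
  have h1 : toAdd b = 0 ∨ toAdd c = 0 ∨ toAdd c = - toAdd b := by
    set u := toAdd b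
    set v := toAdd c
    simp only [lt_abs, abs_lt] at hb hc hbc
    omega
  rcases h1 with h | h | h
  · left; exact h
  · right; left; exact h
  · right; right; exact h

/-- the values of `φ` on the positive elements -/
noncomputable def pos (N : ℕ) (M k : ℤ) : ℝ × ℝ × ℝ :=
  ((((k - M - 1) / (2 * N + 1) - N : ℤ) : ℝ) / N, (((k - M - 1) % (2 * N + 1) - N : ℤ) : ℝ) / N, 0)

open Classical in
/-- the map `φ` -/
noncomputable def phi (N : ℕ) (M : ℤ) (k : Multiplicative ℤ) : ℝ × ℝ × ℝ :=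
  if 0 < toAdd k then pos N M (toAdd k)
  else if toAdd k < 0 then hinv (pos N M (-toAdd k)) else (0, 0, 0)

lemma phi_inv (N : ℕ) (M : ℤ) (b : Multiplicative ℤ) : phi N M b⁻¹ = hinv (phi N M b) := by
  unfold phi
  rw [toAdd_inv]
  rcases lt_trichotomy (toAdd b) 0 with h | h | h
  · rw [if_pos (by omega), if_neg (by omega), if_pos h, hinv_hinv]
  · rw [h]; simp [hinv]
  · rw [if_neg (by omega), if_pos (by omega), if_pos h, neg_neg]

lemma phi_one (N : ℕ) (M : ℤ) : phi N M 1 = (0, 0, 0) := by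
  simp [phi]

lemma pos_bound (N : ℕ) (hN : 1 ≤ N) (M : ℤ) (hM : M = (2 * N + 1) ^ 2 + 1) (k : ℤ) (h1 : M < k)
    (h2 : k < 2 * M) :
    |(pos N M k).1| ≤ 1 ∧ |(pos N M k).2.1| ≤ 1 := by
  have hN' : (1 : ℤ) ≤ N := by exact_mod_cast hN
  have hNr : (0 : ℝ) < N := by exact_mod_cast hN
  have hL : (0 : ℤ) < 2 * N + 1 := by omega
  have hlt : k - M - 1 < (2 * N + 1) * (2 * N + 1) := by
    have : ((2 * N + 1) ^ 2 : ℤ) = (2 * N + 1) * (2 * N + 1) := by ring
    rw [this] at hM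
    omega
  have a1 : 0 ≤ (k - M - 1) / (2 * N + 1) := Int.ediv_nonneg (by omega) hL.le
  have a2 : (k - M - 1) / (2 * N + 1) < 2 * N + 1 := Int.ediv_lt_of_lt_mul hL hlt
  have b1 : 0 ≤ (k - M - 1) % (2 * N + 1) := Int.emod_nonneg _ hL.ne'
  have b2 : (k - M - 1) % (2 * N + 1) < 2 * N + 1 := Int.emod_lt_of_pos _ hL
  have key : ∀ t : ℤ, -(N : ℤ) ≤ t → t ≤ N → |(t : ℝ) / N| ≤ 1 := by
    intro t h3 h4
    rw [abs_div, abs_of_pos hNr, div_le_one hNr, abs_le]
    exact ⟨by exact_mod_cast h3, by exact_mod_cast h4⟩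
  exact ⟨key _ (by omega) (by omega), key _ (by omega) (by omega)⟩

/-- For every `N ≥ 1` there is an admissible triple with a `5`-approximate group of at most
`2 (2N+1)² + 1` elements. -/
theorem result : ∀ N : ℕ, 1 ≤ N →
    ∃ (B : Set (Multiplicative ℤ)) (φ : Multiplicative ℤ → ℝ × ℝ × ℝ),
      Admissible 5 N B φ ∧ B.Finite ∧ B.ncard ≤ 2 * (2 * N + 1) ^ 2 + 1 := by
  intro N hN
  have hN' : (1 : ℤ) ≤ N := by exact_mod_cast hN
  have hNr : (0 : ℝ) < N := by exact_mod_cast hN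
  obtain ⟨M, hM⟩ : ∃ M : ℤ, M = (2 * N + 1) ^ 2 + 1 := ⟨_, rfl⟩
  have hM2 : 2 ≤ M := by nlinarith
  have hL : (0 : ℤ) < 2 * N + 1 := by omega
  refine ⟨Bset M, phi N M, ⟨approx M hM2, ?_, ?_, ?_⟩, ?_⟩
  · -- bounds
    have hpos : ∀ k : ℤ, M < k → k < 2 * M →
        ∀ p, (p = pos N M k ∨ p = hinv (pos N M k)) →
        (∃ i : ℤ, p.1 = i / N) ∧ (∃ j : ℤ, p.2.1 = j / N) ∧
          |p.1| ≤ 10 ∧ |p.2.1| ≤ 10 ∧ |p.2.2| ≤ 10 := by
      intro k h1 h2 p hp
      obtain ⟨c1, c2⟩ := pos_bound N hN M hM k h1 h2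
      rcases hp with rfl | rfl
      · refine ⟨⟨_, rfl⟩, ⟨_, rfl⟩, by linarith, by linarith, ?_⟩
        simp [pos]
      · refine ⟨⟨-((k - M - 1) / (2 * N + 1) - N), ?_⟩, ⟨-((k - M - 1) % (2 * N + 1) - N), ?_⟩,
          ?_, ?_, ?_⟩
        · simp only [hinv, pos, Int.cast_neg, neg_div]
        · simp only [hinv, pos, Int.cast_neg, neg_div]
        · simp only [hinv, abs_neg]; linarith
        · simp only [hinv, abs_neg]; linarith
        · have e : (hinv (pos N M k)).2.2 = (pos N M k).1 * (pos N M k).2.1 := by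
            simp [hinv, pos]
          rw [e, abs_mul]
          have := mul_le_one₀ c1 (abs_nonneg _) c2
          linarith
    intro b hb
    rcases hb with hb | ⟨hb1, hb2⟩
    · have : b = 1 := hb
      rw [this, phi_one]
      exact ⟨⟨0, by simp⟩, ⟨0, by simp⟩, by simp, by simp, by simp⟩
    · rcases lt_abs.mp hb1 with h | h
      · have h2 : toAdd b < 2 * M := (abs_lt.mp hb2).2
        apply hpos (toAdd b) h h2
        left
        unfold phi
        rw [if_pos (by omega)]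
      · have h2 : -toAdd b < 2 * M := by have := (abs_lt.mp hb2).1; omega
        apply hpos (-toAdd b) h h2
        right
        unfold phi
        rw [if_neg (by omega), if_pos (by omega)]
  · -- the grid is covered
    intro i j hi hj
    have hi' : -(N : ℤ) ≤ i ∧ i ≤ N := by
      rw [abs_div, abs_of_pos hNr, div_le_one hNr, abs_le] at hi
      exact ⟨by exact_mod_cast hi.1, by exact_mod_cast hi.2⟩
    have hj' : -(N : ℤ) ≤ j ∧ j ≤ N := by
      rw [abs_div, abs_of_pos hNr, div_le_one hNr, abs_le] at hj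
      exact ⟨by exact_mod_cast hj.1, by exact_mod_cast hj.2⟩
    set k : ℤ := M + 1 + ((2 * N + 1) * (i + N) + (j + N)) with hk
    have e0 : k - M - 1 = (j + N) + (2 * N + 1) * (i + N) := by rw [hk]; ring
    have e1 : (k - M - 1) / (2 * N + 1) = i + N := by
      rw [e0, Int.add_mul_ediv_left _ _ hL.ne', Int.ediv_eq_zero_of_lt (by omega) (by omega),
        zero_add]
    have e2 : (k - M - 1) % (2 * N + 1) = j + N := by
      rw [e0, Int.add_mul_emod_self_left, Int.emod_eq_of_lt (by omega) (by omega)]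
    have p1 : 0 ≤ (2 * (N : ℤ) + 1) * (i + N) := mul_nonneg hL.le (by omega)
    have p2 : (2 * (N : ℤ) + 1) * (i + N) ≤ (2 * N + 1) * (2 * N) :=
      mul_le_mul_of_nonneg_left (by omega) hL.le
    have hk1 : M < k := by omega
    have hk2 : k < 2 * M := by
      have : (2 * (N : ℤ) + 1) * (2 * N) + 2 * N + 1 = M - 1 := by rw [hM]; ring
      omega
    refine ⟨0, by simp, ofAdd k, ?_, ?_⟩
    · right
      rw [toAdd_ofAdd, abs_of_pos (by omega)]
      exact ⟨hk1, hk2⟩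
    · unfold phi
      rw [toAdd_ofAdd, if_pos (by omega)]
      simp only [pos, e1, e2]
      congr 2
      · push_cast; ring
      · push_cast
        congr 1
        ring
  · -- cocycle
    intro b hb c hc hbc
    refine ⟨0, by simp; positivity, ?_⟩
    rcases sumfree hb hc hbc with h | h | h
    · rw [h, one_mul, phi_one, hinv_zero, zero_hmul, hinv_hmul]
    · rw [h, mul_one, phi_one, hinv_zero, zero_hmul, hinv_hmul]
    · rw [h, mul_inv_cancel, phi_one, hmul_zero, phi_inv, hinv_hinv, hmul_hinv]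
  · -- size
    have hsub : Bset M = {ofAdd (0 : ℤ)} ∪ (ofAdd '' (Finset.Ioo M (2 * M) : Set ℤ) ∪
        ofAdd '' (Finset.Ioo (-(2 * M)) (-M) : Set ℤ)) := by
      ext b
      simp only [Bset, Set.mem_ofPred_eq, Set.mem_union, Set.mem_singleton_iff, Set.mem_image,
        Finset.coe_Ioo, Set.mem_Ioo]
      constructor
      · rintro (h | ⟨h1, h2⟩)
        · left; exact h
        · right
          rcases lt_abs.mp h1 with h | h
          · left; exact ⟨toAdd b, ⟨h, (abs_lt.mp h2).2⟩, rfl⟩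
          · right; exact ⟨toAdd b, ⟨(abs_lt.mp h2).1, by omega⟩, rfl⟩
      · rintro (h | ⟨u, ⟨h1, h2⟩, rfl⟩ | ⟨u, ⟨h1, h2⟩, rfl⟩)
        · left; rw [h]; rfl
        · right; rw [toAdd_ofAdd, abs_of_pos (by omega)]; exact ⟨h1, h2⟩
        · right; rw [toAdd_ofAdd, abs_of_neg (by omega)]; constructor <;> omega
    refine ⟨?_, ?_⟩
    · rw [hsub]
      exact (Set.finite_singleton _).union (((Finset.finite_toSet _).image _).union
        ((Finset.finite_toSet _).image _))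
    · rw [hsub]
      have c1 : (ofAdd '' (Finset.Ioo M (2 * M) : Set ℤ)).ncard ≤ (2 * N + 1) ^ 2 := by
        refine (Set.ncard_image_le (Finset.finite_toSet _)).trans ?_
        rw [Set.ncard_coe_finset, Int.card_Ioo]
        have : 2 * M - M - 1 = (((2 * N + 1) ^ 2 : ℕ) : ℤ) := by push_cast; omega
        rw [this, Int.toNat_natCast]
      have c2 : (ofAdd '' (Finset.Ioo (-(2 * M)) (-M) : Set ℤ)).ncard ≤ (2 * N + 1) ^ 2 := by
        refine (Set.ncard_image_le (Finset.finite_toSet _)).trans ?_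
        rw [Set.ncard_coe_finset, Int.card_Ioo]
        have : -M - -(2 * M) - 1 = (((2 * N + 1) ^ 2 : ℕ) : ℤ) := by push_cast; omega
        rw [this, Int.toNat_natCast]
      refine (Set.ncard_union_le _ _).trans ?_
      have c3 := Set.ncard_union_le (ofAdd '' (Finset.Ioo M (2 * M) : Set ℤ))
        (ofAdd '' (Finset.Ioo (-(2 * M)) (-M) : Set ℤ))
      rw [Set.ncard_singleton]
      omega

end Pool.Agent.Results.MP_6a66b4_co.QuadraticSize
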